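import Mathlib
import Pool.Agent.H958.RO.Stm

/-! # RO: counting vertices near bad vertices -/

set_option autoImplicit false

namespace Pool.Agent.H94.RO.Cover

open Finset
open scoped Classical
open Pool.Agent.W830.RD (Om gle Pr Rlz)
open Pool.Agent.H958.RO

/-- fibres over the initial vertex -/
theorem fib {n m : ℕ} (N : Finset (Fin n)) (G : Finset (Fin (m + 1) → Fin n)) :
    ∑ v ∈ N, (G.filter (fun w => w 0 = v)).card ≤ G.card := by
  rw [Finset.sum_card_fiberwise_eq_card_filter]
  exact Finset.card_le_card (Finset.filter_subset _ _)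

theorem fibP {n m : ℕ} (E : Finset (Fin n × Fin n)) (N : Finset (Fin n))
    (F : Finset (Fin (m + 1) → Fin n)) :
    ∑ v ∈ N, (F.filter (fun w => w 0 = v ∧
      ∀ i : Fin m, (GG E).Adj (w i.castSucc) (w i.succ))).card ≤ PC E F := by
  refine le_trans (le_of_eq ?_) (fib N (F.filter (fun w => ∀ i : Fin m,
    (GG E).Adj (w i.castSucc) (w i.succ))))
  refine Finset.sum_congr rfl fun v _ => ?_
  rw [Finset.filter_filter]
  congr 1
  refine Finset.filter_congr fun w _ => ?_
  exact and_comm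

theorem main (h1 : S_COVA) (h2 : S_COVB) : S_COVER := by
  intro n E l D r hE
  have key : ∀ v ∈ NN E (2 * l) D r, D - r ≤
      ∑ s ∈ range (r + 1), ((Inj n (s + 1)).filter (fun w => w 0 = v ∧
        ∀ i : Fin (s + 1), (GG E).Adj (w i.castSucc) (w i.succ))).card +
      (D - r) * ∑ s ∈ range (r + 1), ((Mon n s l).filter (fun w => w 0 = v ∧
        ∀ i : Fin (s + l), (GG E).Adj (w i.castSucc) (w i.succ))).card := by
    intro v hv
    simp only [NN, Finset.mem_filter, Finset.mem_univ, true_and] at hv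
    obtain ⟨b, hb, hp⟩ := hv
    rcases hb with hb | hb
    · obtain ⟨s, hs, hc⟩ := h1 n E D r v b hb hp
      refine le_trans hc (le_trans ?_ (Nat.le_add_right _ _))
      exact Finset.single_le_sum (f := fun s => ((Inj n (s + 1)).filter (fun w => w 0 = v ∧
        ∀ i : Fin (s + 1), (GG E).Adj (w i.castSucc) (w i.succ))).card)
        (fun _ _ => Nat.zero_le _) (Finset.mem_range.2 (Nat.lt_succ_of_le hs))
    · obtain ⟨s, hs, w, hw, hw0, hwp⟩ := h2 n E l r v b hE hb hp
      refine le_trans ?_ (Nat.le_add_left _ _)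
      refine Nat.le_mul_of_pos_right _ ?_
      refine Finset.sum_pos' (fun _ _ => Nat.zero_le _) ⟨s, Finset.mem_range.2 (Nat.lt_succ_of_le hs), ?_⟩
      exact Finset.card_pos.2 ⟨w, Finset.mem_filter.2 ⟨hw, hw0, hwp⟩⟩
  calc (NN E (2 * l) D r).card * (D - r) = ∑ v ∈ NN E (2 * l) D r, (D - r) := by
        rw [Finset.sum_const, smul_eq_mul]
    _ ≤ ∑ v ∈ NN E (2 * l) D r, (∑ s ∈ range (r + 1), ((Inj n (s + 1)).filter (fun w => w 0 = v ∧
        ∀ i : Fin (s + 1), (GG E).Adj (w i.castSucc) (w i.succ))).card +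
      (D - r) * ∑ s ∈ range (r + 1), ((Mon n s l).filter (fun w => w 0 = v ∧
        ∀ i : Fin (s + l), (GG E).Adj (w i.castSucc) (w i.succ))).card) :=
        Finset.sum_le_sum key
    _ = ∑ s ∈ range (r + 1), ∑ v ∈ NN E (2 * l) D r, ((Inj n (s + 1)).filter (fun w => w 0 = v ∧
        ∀ i : Fin (s + 1), (GG E).Adj (w i.castSucc) (w i.succ))).card +
      (D - r) * ∑ s ∈ range (r + 1), ∑ v ∈ NN E (2 * l) D r,
        ((Mon n s l).filter (fun w => w 0 = v ∧
        ∀ i : Fin (s + l), (GG E).Adj (w i.castSucc) (w i.succ))).card := by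
        rw [Finset.sum_add_distrib, ← Finset.mul_sum, Finset.sum_comm]
        congr 2
        rw [Finset.sum_comm]
    _ ≤ ∑ s ∈ range (r + 1), PC E (Inj n (s + 1)) +
      (D - r) * ∑ s ∈ range (r + 1), PC E (Mon n s l) := by
        refine Nat.add_le_add ?_ (Nat.mul_le_mul_left _ ?_)
        · exact Finset.sum_le_sum fun s _ => fibP E _ _
        · exact Finset.sum_le_sum fun s _ => fibP E _ _

end Pool.Agent.H94.RO.Cover
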